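import Pool.Agent.MWBN.Stmts

/-!
# Block MWBN, row XCN: the class W has the visibility relation `VW`
(adapted from the row XCW of MWS by helper67)
-/

set_option autoImplicit false

namespace Pool.Agent.MWBN.H36

open Pool.Agent.Helper14_MV Pool.Agent.Helper2_MV Pool.Agent.MVO Pool.Agent.MWL Pool.Agent.MWS

/-- the letters `0`, `1` are replaced by `x`, `y` -/
def hh (x y : ℕ) : ℕ → List ℕ := fun c => if c = 0 then [x] else [y]

/-- the middle part of a canonical block -/
def mid (x y : ℕ) (l : List ℕ) (e : Bool) : List ℕ :=
  (bl (hv (l.count x)) (hv (l.count y)) e).flatMap (hh x y)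

theorem hv_pos {n : ℕ} (h : n ≠ 0) : hv n = 2 := by
  unfold hv
  rw [if_neg h]

theorem hv_zero {n : ℕ} (h : n = 0) : hv n = 0 := by
  unfold hv
  rw [if_pos h]

/-- an occurrence can be raised -/
def HI (N : ℕ) (β : FIC) : Prop :=
  ∀ (p q : List ℕ) (x : ℕ), (x ∈ p ∨ x ∈ q) →
    RR β (p ++ x :: q) (p ++ (List.replicate (N + 2) x ++ q))

/-- occurrences can be inserted behind multiple letters -/
def HE (N : ℕ) (β : FIC) : Prop :=
  ∀ (w p q : List ℕ) (a : ℕ), a ∈ q → (∀ c ∈ w, 2 ≤ (p ++ a :: (w ++ q)).count c) →
    RR β (p ++ a :: (w ++ q)) (p ++ a :: (w ++ (List.replicate (N + 1) a ++ q)))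

theorem rep_r (N x : ℕ) : List.replicate (N + 2) x = List.replicate N x ++ [x, x] :=
  List.replicate_add N 2 x

theorem rep_l (N x : ℕ) : List.replicate (N + 2) x = x :: x :: List.replicate N x := rfl

theorem rep_2 (N x : ℕ) : List.replicate (2 * N) x = List.replicate N x ++ List.replicate N x := by
  rw [two_mul]
  exact List.replicate_add N N x

/-- two letters in a block -/
theorem two_let {N : ℕ} {β : FIC} (hI : HI N β) (hE : HE N β) (a b : ℕ) (P1 P2 V p q : List ℕ)
    (ha : a ∈ q) (hb : b ∈ p ∨ b ∈ q)
    (hc : ∀ c ∈ P2 ++ [b], 2 ≤ ((p ++ P1) ++ a :: ((P2 ++ [b]) ++ (V ++ q))).count c) :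
    RR β ((p ++ P1) ++ a :: ((P2 ++ [b]) ++ (V ++ q)))
      (p ++ ((P1 ++ a :: P2 ++ List.replicate N b) ++ [b, b, a, a] ++
        (List.replicate (2 * N) a ++ V)) ++ q) := by
  have s1 := hE (P2 ++ [b]) (p ++ P1) (V ++ q) a (List.mem_append_right _ ha) hc
  have s2 := hI (p ++ P1 ++ a :: P2) (List.replicate (N + 1) a ++ (V ++ q)) b (by
    rcases hb with h | h
    · exact Or.inl (List.mem_append_left _ (List.mem_append_left _ h))
    · exact Or.inr (List.mem_append_right _ (List.mem_append_right _ h)))
  have s3 := hI (p ++ P1 ++ a :: P2 ++ List.replicate (N + 2) b)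
    (List.replicate N a ++ (V ++ q)) a
    (Or.inr (List.mem_append_right _ (List.mem_append_right _ ha)))
  have e1 : (p ++ P1) ++ a :: ((P2 ++ [b]) ++ (List.replicate (N + 1) a ++ (V ++ q))) =
      (p ++ P1 ++ a :: P2) ++ b :: (List.replicate (N + 1) a ++ (V ++ q)) := by
    simp only [List.append_assoc, List.cons_append, List.nil_append]
  have e2 : (p ++ P1 ++ a :: P2) ++ (List.replicate (N + 2) b ++
      (List.replicate (N + 1) a ++ (V ++ q))) =
      (p ++ P1 ++ a :: P2 ++ List.replicate (N + 2) b) ++ a :: (List.replicate N a ++ (V ++ q)) := by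
    rw [List.replicate_succ (n := N) (a := a)]
    simp only [List.append_assoc, List.cons_append, List.nil_append]
  have e3 : (p ++ P1 ++ a :: P2 ++ List.replicate (N + 2) b) ++ (List.replicate (N + 2) a ++
      (List.replicate N a ++ (V ++ q))) =
      p ++ ((P1 ++ a :: P2 ++ List.replicate N b) ++ [b, b, a, a] ++
        (List.replicate (2 * N) a ++ V)) ++ q := by
    rw [rep_r N b, rep_l N a, rep_2]
    simp only [List.append_assoc, List.cons_append, List.nil_append]
  rw [e1] at s1
  rw [e2] at s2
  rw [e3] at s3
  exact β.trans s1 (β.trans s2 s3)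

/-- one letter in a block -/
theorem one_let {N : ℕ} {β : FIC} (hI : HI N β) (a : ℕ) (U V p q : List ℕ)
    (ha : a ∈ p ∨ a ∈ q) :
    RR β (p ++ (U ++ a :: V) ++ q) (p ++ ((U ++ List.replicate N a) ++ [a, a] ++ V) ++ q) := by
  have h2 := hI (p ++ U) (V ++ q) a (by
    rcases ha with h1 | h1
    · exact Or.inl (List.mem_append_left _ h1)
    · exact Or.inr (List.mem_append_right _ h1))
  have e1 : p ++ (U ++ a :: V) ++ q = (p ++ U) ++ a :: (V ++ q) := by
    simp only [List.append_assoc, List.cons_append, List.nil_append]
  have e2 : p ++ ((U ++ List.replicate N a) ++ [a, a] ++ V) ++ q =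
      (p ++ U) ++ (List.replicate (N + 2) a ++ (V ++ q)) := by
    rw [rep_r]
    simp only [List.append_assoc, List.cons_append, List.nil_append]
  rw [e1, e2]
  exact h2

/-- one block in a context which contains `x` and `y` -/
theorem oneBlock {N : ℕ} {β : FIC} (hI : HI N β) (hE : HE N β) (x y : ℕ) (hxy : x ≠ y)
    (l : List ℕ) : ∃ (P Q : List ℕ) (e : Bool),
      (∀ c, l.count c ≤ (P ++ mid x y l e ++ Q).count c) ∧
      ∀ p q : List ℕ, (x ∈ l → y ∈ l → x ∈ q ∧ y ∈ q) → (x ∈ p ∨ x ∈ q) → (y ∈ p ∨ y ∈ q) →
        (∀ c ∈ l, 2 ≤ (p ++ l ++ q).count c) →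
          RR β (p ++ l ++ q) (p ++ (P ++ mid x y l e ++ Q) ++ q) := by
  by_cases hx : x ∈ l
  · have hcx : hv (l.count x) = 2 := hv_pos (Nat.pos_iff_ne_zero.1 (List.count_pos_iff.2 hx))
    by_cases hy : y ∈ l
    · have hcy : hv (l.count y) = 2 := hv_pos (Nat.pos_iff_ne_zero.1 (List.count_pos_iff.2 hy))
      obtain ⟨U, V, hUV⟩ := List.append_of_mem hy
      rcases (by
        rw [hUV] at hx
        rcases List.mem_append.1 hx with h | h
        · exact Or.inl h
        · rcases List.mem_cons.1 h with h | h
          · exact absurd h hxy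
          · exact Or.inr h : x ∈ U ∨ x ∈ V) with hxU | hxV
      · -- an `x` before a `y`
        obtain ⟨P1, P2, hP⟩ := List.append_of_mem hxU
        have hm : mid x y l true = [y, y, x, x] := by
          unfold mid
          rw [hcx, hcy]
          rfl
        refine ⟨P1 ++ x :: P2 ++ List.replicate N y, List.replicate (2 * N) x ++ V, true, ?_, ?_⟩
        · intro c
          rw [hm, hUV, hP]
          simp only [List.count_append, List.count_cons, List.count_nil]
          omega
        · intro p q hb _ _ hc
          rw [hm]
          obtain ⟨hxq, hyq⟩ := hb hx hy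
          have e0 : p ++ l ++ q = (p ++ P1) ++ x :: ((P2 ++ [y]) ++ (V ++ q)) := by
            rw [hUV, hP]
            simp only [List.append_assoc, List.cons_append, List.nil_append]
          rw [e0]
          refine two_let hI hE x y P1 P2 V p q hxq (Or.inr hyq) ?_
          intro c hcm
          rw [← e0]
          apply hc
          rw [hUV, hP]
          simp only [List.mem_append, List.mem_cons, List.not_mem_nil, or_false] at hcm ⊢
          tauto
      · -- a `y` before an `x`
        obtain ⟨V1, V2, hV⟩ := List.append_of_mem hxV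
        have hm : mid x y l false = [x, x, y, y] := by
          unfold mid
          rw [hcx, hcy]
          rfl
        refine ⟨U ++ y :: V1 ++ List.replicate N x, List.replicate (2 * N) y ++ V2, false, ?_, ?_⟩
        · intro c
          rw [hm, hUV, hV]
          simp only [List.count_append, List.count_cons, List.count_nil]
          omega
        · intro p q hb _ _ hc
          rw [hm]
          obtain ⟨hxq, hyq⟩ := hb hx hy
          have e0 : p ++ l ++ q = (p ++ U) ++ y :: ((V1 ++ [x]) ++ (V2 ++ q)) := by
            rw [hUV, hV]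
            simp only [List.append_assoc, List.cons_append, List.nil_append]
          rw [e0]
          refine two_let hI hE y x U V1 V2 p q hyq (Or.inr hxq) ?_
          intro c hcm
          rw [← e0]
          apply hc
          rw [hUV, hV]
          simp only [List.mem_append, List.mem_cons, List.not_mem_nil, or_false] at hcm ⊢
          tauto
    · -- only `x`
      have hcy : hv (l.count y) = 0 := hv_zero (List.count_eq_zero.2 hy)
      obtain ⟨U, V, hUV⟩ := List.append_of_mem hx
      have hm : mid x y l false = [x, x] := by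
        unfold mid
        rw [hcx, hcy]
        rfl
      refine ⟨U ++ List.replicate N x, V, false, ?_, ?_⟩
      · intro c
        rw [hm, hUV]
        simp only [List.count_append, List.count_cons, List.count_nil]
        omega
      · intro p q _ h1 _ _
        rw [hm, hUV]
        exact one_let hI x U V p q h1
  · have hcx : hv (l.count x) = 0 := hv_zero (List.count_eq_zero.2 hx)
    by_cases hy : y ∈ l
    · -- only `y`
      have hcy : hv (l.count y) = 2 := hv_pos (Nat.pos_iff_ne_zero.1 (List.count_pos_iff.2 hy))
      obtain ⟨U, V, hUV⟩ := List.append_of_mem hy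
      have hm : mid x y l false = [y, y] := by
        unfold mid
        rw [hcx, hcy]
        rfl
      refine ⟨U ++ List.replicate N y, V, false, ?_, ?_⟩
      · intro c
        rw [hm, hUV]
        simp only [List.count_append, List.count_cons, List.count_nil]
        omega
      · intro p q _ _ h1 _
        rw [hm, hUV]
        exact one_let hI y U V p q h1
    · -- neither
      have hcy : hv (l.count y) = 0 := hv_zero (List.count_eq_zero.2 hy)
      have hm : mid x y l false = [] := by
        unfold mid
        rw [hcx, hcy]
        rfl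
      refine ⟨l, [], false, ?_, ?_⟩
      · intro c
        rw [hm]
        simp
      · intro p q _ _ _ _
        rw [hm, List.append_nil, List.append_nil]
        exact RR.refl _

theorem deg_mono {k : ℕ} {a b : ℕ → ℕ} (h : ∀ j ≤ k, a j ≤ b j) : deg k a ≤ deg k b := by
  unfold deg
  exact Finset.sum_le_sum (fun j hj => h j (by rw [Finset.mem_range] at hj; omega))

/-- counts after a change of one block -/
theorem cntU {k : ℕ} {C : ℕ → List ℕ} (hC : OkB k C) {i : ℕ} (hi : i ≤ k) {L : List ℕ}
    (hL : ∀ c, (C i).count c ≤ L.count c) {c : ℕ} (hc : ∃ j ≤ k, c ∈ C j) :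
    2 ≤ (pre C i ++ L ++ suf C i (k - i)).count c := by
  obtain ⟨j, hj, hm⟩ := hc
  rw [← asm_update hi C L, count_asm (hC.ok j hj c hm)]
  refine le_trans (hC.ml j hj c hm) (deg_mono ?_)
  intro j' _
  by_cases h : j' = i
  · rw [h, Function.update_self]
    exact hL c
  · rw [Function.update_of_ne h]

/-- all the blocks outside `i` -/
theorem outB (hblr : MWS.BlrStmt) {N : ℕ} {β : FIC} (hI : HI N β) (hE : HE N β) {k : ℕ}
    {C : ℕ → List ℕ} (hC : OkB k C) {i : ℕ} (hi : i ≤ k) {x y : ℕ} (hxy : x ≠ y)
    (hx : ∀ j, i < j → j ≤ k → x ∉ C j) :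
    ∃ (P Q : ℕ → List ℕ) (e : ℕ → Bool), ∀ L : List ℕ, (∀ c, (C i).count c ≤ L.count c) →
      x ∈ L → y ∈ L → RR β (asm k (Function.update C i L))
        (asm k (Function.update (fun j => P j ++ mid x y (C j) (e j) ++ Q j) i L)) := by
  choose P Q e h1 h2 using fun j => oneBlock hI hE x y hxy (C j)
  refine ⟨P, Q, e, ?_⟩
  intro L hL hxL hyL
  obtain ⟨T, hT⟩ : ∃ T : ℕ → List ℕ, T = fun j => P j ++ mid x y (C j) (e j) ++ Q j := ⟨_, rfl⟩
  have hTj : ∀ j, T j = P j ++ mid x y (C j) (e j) ++ Q j := fun j => by rw [hT]
  rw [← hT]
  obtain ⟨B, hB⟩ : ∃ B, B = Function.update C i L := ⟨_, rfl⟩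
  obtain ⟨B', hB'⟩ : ∃ B', B' = Function.update T i L := ⟨_, rfl⟩
  rw [← hB, ← hB']
  have b1 : B i = L := by rw [hB, Function.update_self]
  have b2 : B' i = L := by rw [hB', Function.update_self]
  have b3 : ∀ j, j ≠ i → B j = C j := fun j hj => by rw [hB, Function.update_of_ne hj]
  have b4 : ∀ j, j ≠ i → B' j = T j := fun j hj => by rw [hB', Function.update_of_ne hj]
  have hcnt : ∀ j c, (B j).count c ≤ (B' j).count c := by
    intro j c
    by_cases h : j = i
    · rw [h, b1, b2]
    · rw [b3 j h, b4 j h, hTj]
      exact h1 j c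
  apply hblr
  intro m hm
  by_cases hmi : m = i
  · have e1 : (fun j => if j < m then B' j else B j) =
        fun j => if j < m + 1 then B' j else B j := by
      funext j
      rcases lt_trichotomy j m with h | h | h
      · rw [if_pos h, if_pos (by omega)]
      · rw [if_neg (by omega), if_pos (by omega), h, hmi, b1, b2]
      · rw [if_neg (by omega), if_neg (by omega)]
    rw [e1]
    exact RR.refl _
  · obtain ⟨F, hF⟩ : ∃ F : ℕ → List ℕ, F = fun j => if j < m then B' j else B j := ⟨_, rfl⟩
    have hFj : ∀ j, F j = if j < m then B' j else B j := fun j => by rw [hF]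
    have hFm : F m = C m := by
      rw [hFj, if_neg (by omega), b3 m hmi]
    have hFi : F i = L := by
      rw [hFj]
      split
      · exact b2
      · exact b1
    have e2 : (fun j => if j < m + 1 then B' j else B j) = Function.update F m (T m) := by
      funext j
      rcases lt_trichotomy j m with h | h | h
      · rw [if_pos (by omega), Function.update_of_ne (by omega), hFj, if_pos h]
      · rw [if_pos (by omega), h, Function.update_self, b4 m hmi]
      · rw [if_neg (by omega), Function.update_of_ne (by omega), hFj, if_neg (by omega)]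
    rw [e2, ← hF, asm_update hm, asm_split hm F, hFm, hTj]
    have hmemx : ∀ z, z ∈ L → (m < i → z ∈ suf F m (k - m)) ∧ (i < m → z ∈ pre F m) := by
      intro z hz
      constructor
      · intro h
        exact mem_suf.2 (Or.inr ⟨i, h, by omega, by rw [hFi]; exact hz⟩)
      · intro h
        exact mem_pre.2 (Or.inr ⟨i, h, by rw [hFi]; exact hz⟩)
    have hor : ∀ z, z ∈ L → z ∈ pre F m ∨ z ∈ suf F m (k - m) := by
      intro z hz
      rcases lt_or_gt_of_ne hmi with h | h
      · exact Or.inr ((hmemx z hz).1 h)
      · exact Or.inl ((hmemx z hz).2 h)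
    refine h2 m _ _ ?_ (hor x hxL) (hor y hyL) ?_
    · intro hxm _
      have h3 : m < i := by
        by_contra hcon
        exact hx m (by omega) hm hxm
      exact ⟨(hmemx x hxL).1 h3, (hmemx y hyL).1 h3⟩
    · intro c hc
      have hns : NS k c := hC.ok m hm c hc
      rw [← hFm, ← asm_split hm F, count_asm hns]
      refine le_trans (hC.ml m hm c hc) (deg_mono ?_)
      intro j _
      have h3 : (C j).count c ≤ (B j).count c := by
        by_cases h : j = i
        · rw [h, b1]
          exact hL c
        · rw [b3 j h]
      refine le_trans h3 ?_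
      rw [hFj]
      split
      · exact hcnt j c
      · exact le_rfl

theorem blkOk_cb {k : ℕ} {a b : ℕ → ℕ} {e : ℕ → Bool} {i : ℕ} {l : List ℕ}
    (hl : ∀ c ∈ l, c = 0 ∨ c = 1) : BlkOk k (cb a b e i l) := by
  intro j _ c hc
  have h1 : c = 0 ∨ c = 1 := by
    unfold cb at hc
    by_cases h : j = i
    · rw [if_pos h] at hc
      exact hl c hc
    · rw [if_neg h] at hc
      unfold bl at hc
      by_cases h2 : e j = true
      · rw [if_pos h2, List.mem_append] at hc
        rcases hc with hc | hc
        · exact Or.inr (List.eq_of_mem_replicate hc)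
        · exact Or.inl (List.eq_of_mem_replicate hc)
      · rw [if_neg h2, List.mem_append] at hc
        rcases hc with hc | hc
        · exact Or.inl (List.eq_of_mem_replicate hc)
        · exact Or.inr (List.eq_of_mem_replicate hc)
  rintro ⟨h2, _⟩
  omega

theorem xchN (hblr : MWS.BlrStmt) (hshn : ShnStmt) {N : ℕ} {β : FIC} (hβ : ClW (N + 1) β)
    (hI : HI N β) (hE : HE N β) (θ : FIC) (hle : β ≤ θ) (k : ℕ) (C : ℕ → List ℕ) (hC : OkB k C)
    (i : ℕ) (hi : i ≤ k) (A D : List ℕ) (x y : ℕ) (hCi : C i = A ++ x :: y :: D) (hxy : x ≠ y)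
    (hxA : x ∈ A) (hyD : y ∈ D)
    (hV : ¬ VW k (ty C x) (ty C y) i ∨ TE θ k (ty C x) (ty C y) i) :
    RR θ (asm k C) (asm k (Function.update C i (A ++ y :: x :: D))) := by
  have hxi : x ∈ C i := by
    rw [hCi]
    exact List.mem_append_left _ hxA
  have hyi : y ∈ C i := by
    rw [hCi]
    exact List.mem_append_right _ (List.mem_cons_of_mem _ List.mem_cons_self)
  obtain ⟨A1, A2, hA⟩ := List.append_of_mem hxA
  have hCi' : ∀ c, c ∈ A2 ∨ c = y ∨ c = x ∨ c ∈ D → c ∈ C i := by
    intro c hc
    rw [hCi, hA]
    simp only [List.mem_append, List.mem_cons]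
    tauto
  have m4 : ∀ c, (C i).count c ≤ (A ++ [y, x] ++ D).count c := by
    intro c
    rw [hCi]
    simp only [List.count_append, List.count_cons, List.count_nil]
    omega
  have e9 : A ++ y :: x :: D = A ++ [y, x] ++ D := by
    simp only [List.append_assoc, List.cons_append, List.nil_append]
  rw [e9]
  by_cases hj : ∃ j, i < j ∧ j ≤ k ∧ x ∈ C j
  · obtain ⟨j, hij, hjk, hxj⟩ := hj
    have hxs : x ∈ suf C i (k - i) := mem_suf.2 (Or.inr ⟨j, hij, by omega, hxj⟩)
    have e1 : asm k C = (pre C i ++ A1) ++ x :: (A2 ++ x :: (y :: (D ++ suf C i (k - i)))) := by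
      rw [asm_split hi C, hCi, hA]
      simp only [List.append_assoc, List.cons_append, List.nil_append]
    have e2 : asm k (Function.update C i (A ++ [y, x] ++ D)) =
        (pre C i ++ A1) ++ x :: (A2 ++ y :: x :: (D ++ suf C i (k - i))) := by
      rw [asm_update hi C, hA]
      simp only [List.append_assoc, List.cons_append, List.nil_append]
    have s1 := hshn (N + 1) β hβ (pre C i ++ A1) A2 (D ++ suf C i (k - i)) x y
      (List.mem_append_right _ hxs) (by
        intro c hc
        rw [← e2, asm_update hi C]
        refine cntU hC hi m4 ⟨i, hi, hCi' c ?_⟩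
        rcases hc with h | h
        · exact Or.inl h
        · exact Or.inr (Or.inl h))
    rw [e1, e2]
    exact hle _ _ s1.symm
  · push Not at hj
    have hxj : ∀ j, i < j → j ≤ k → x ∉ C j := fun j h1 h2 => hj j h1 h2
    have hVW : VW k (ty C x) (ty C y) i := by
      refine ⟨hi, ?_, ?_, ?_⟩
      · exact Nat.pos_iff_ne_zero.1 (List.count_pos_iff.2 hxi)
      · exact Nat.pos_iff_ne_zero.1 (List.count_pos_iff.2 hyi)
      · intro j h1 h2
        exact List.count_eq_zero.2 (hxj j h1 h2)
    have hTE : TE θ k (ty C x) (ty C y) i := by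
      rcases hV with h | h
      · exact absurd hVW h
      · exact h
    obtain ⟨P, Q, e, hout⟩ := outB hblr hI hE hC hi (x := x) (y := y) hxy hxj
    obtain ⟨T, hT⟩ : ∃ T : ℕ → List ℕ, T = fun j => P j ++ mid x y (C j) (e j) ++ Q j :=
      ⟨_, rfl⟩
    rw [← hT] at hout
    have hTj : ∀ j, T j = P j ++ mid x y (C j) (e j) ++ Q j := fun j => by rw [hT]
    have m1 : ∀ c, (C i).count c ≤ ((A ++ List.replicate N x) ++ [x, x, y, y] ++
        (List.replicate N y ++ D)).count c := by
      intro c
      rw [hCi]
      simp only [List.count_append, List.count_cons, List.count_nil]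
      omega
    have m2 : ∀ c, (C i).count c ≤ ((A ++ List.replicate N x) ++ [x, y, x, y] ++
        (List.replicate N y ++ D)).count c := by
      intro c
      rw [hCi]
      simp only [List.count_append, List.count_cons, List.count_nil]
      omega
    have m3 : ∀ c, (C i).count c ≤ (A ++ [y, x] ++ (List.replicate (N + 1) y ++ D)).count c := by
      intro c
      rw [hCi]
      simp only [List.count_append, List.count_cons, List.count_nil]
      omega
    have t1 : RR β (asm k C) (asm k (Function.update C i ((A ++ List.replicate N x) ++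
        [x, x, y, y] ++ (List.replicate N y ++ D)))) := by
      have s1 := hI (pre C i ++ A) (y :: (D ++ suf C i (k - i))) x
        (Or.inl (List.mem_append_right _ hxA))
      have s2 := hI (pre C i ++ A ++ List.replicate (N + 2) x) (D ++ suf C i (k - i)) y
        (Or.inr (List.mem_append_left _ hyD))
      have e1 : asm k C = (pre C i ++ A) ++ x :: (y :: (D ++ suf C i (k - i))) := by
        rw [asm_split hi C, hCi]
        simp only [List.append_assoc, List.cons_append, List.nil_append]
      have e2 : (pre C i ++ A) ++ (List.replicate (N + 2) x ++ (y :: (D ++ suf C i (k - i)))) =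
          (pre C i ++ A ++ List.replicate (N + 2) x) ++ y :: (D ++ suf C i (k - i)) := by
        simp only [List.append_assoc, List.cons_append, List.nil_append]
      have e3 : (pre C i ++ A ++ List.replicate (N + 2) x) ++ (List.replicate (N + 2) y ++
          (D ++ suf C i (k - i))) =
          asm k (Function.update C i ((A ++ List.replicate N x) ++
            [x, x, y, y] ++ (List.replicate N y ++ D))) := by
        rw [asm_update hi C, rep_r N x, rep_l N y]
        simp only [List.append_assoc, List.cons_append, List.nil_append]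
      rw [e2] at s1
      rw [e3] at s2
      rw [e1]
      exact β.trans s1 s2
    have t2 := hout _ m1 (by simp [hxA]) (by simp [hyD])
    have t4 := hout _ m2 (by simp [hxA]) (by simp [hyD])
    have t3 : RR θ (asm k (Function.update T i ((A ++ List.replicate N x) ++
        [x, x, y, y] ++ (List.replicate N y ++ D))))
        (asm k (Function.update T i ((A ++ List.replicate N x) ++
        [x, y, x, y] ++ (List.replicate N y ++ D)))) := by
      have h0 := hTE e
      have h1 := rr_ins θ (Function.update P i (A ++ List.replicate N x))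
        (Function.update Q i (List.replicate N y ++ D)) (hh x y)
        (blkOk_cb (by intro c hc; simp at hc; tauto)) (blkOk_cb (by intro c hc; simp at hc; tauto))
        h0
      have key : ∀ l : List ℕ, (fun j => Function.update P i (A ++ List.replicate N x) j ++
          (cb (ty C x) (ty C y) e i l j).flatMap (hh x y) ++
            Function.update Q i (List.replicate N y ++ D) j) =
          Function.update T i ((A ++ List.replicate N x) ++ l.flatMap (hh x y) ++
            (List.replicate N y ++ D)) := by
        intro l
        funext j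
        by_cases h : j = i
        · subst h
          rw [Function.update_self, Function.update_self, Function.update_self]
          unfold cb
          rw [if_pos rfl]
        · rw [Function.update_of_ne h, Function.update_of_ne h, Function.update_of_ne h, hTj]
          unfold cb
          rw [if_neg h]
          rfl
      rw [key, key] at h1
      exact h1
    -- remove the powers of `x`
    have t5 : RR β (asm k (Function.update C i (A ++ [y, x] ++ (List.replicate (N + 1) y ++ D))))
        (asm k (Function.update C i ((A ++ List.replicate N x) ++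
        [x, y, x, y] ++ (List.replicate N y ++ D)))) := by
      have e1 : asm k (Function.update C i (A ++ [y, x] ++ (List.replicate (N + 1) y ++ D))) =
          (pre C i ++ A1) ++ x :: (A2 ++ (y :: x :: (List.replicate (N + 1) y ++
            (D ++ suf C i (k - i))))) := by
        rw [asm_update hi C, hA]
        simp only [List.append_assoc, List.cons_append, List.nil_append]
      have e2 : asm k (Function.update C i ((A ++ List.replicate N x) ++
          [x, y, x, y] ++ (List.replicate N y ++ D))) =
          (pre C i ++ A1) ++ x :: (A2 ++ (List.replicate (N + 1) x ++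
            (y :: x :: (List.replicate (N + 1) y ++ (D ++ suf C i (k - i)))))) := by
        have e4 : List.replicate (N + 1) x = List.replicate N x ++ [x] :=
          List.replicate_add N 1 x
        rw [asm_update hi C, hA, e4, List.replicate_succ (n := N) (a := y)]
        simp only [List.append_assoc, List.cons_append, List.nil_append]
      rw [e2]
      have s := hE A2 (pre C i ++ A1) (y :: x :: (List.replicate (N + 1) y ++
        (D ++ suf C i (k - i)))) x (List.mem_cons_of_mem _ List.mem_cons_self) (by
          intro c hc
          rw [← e1, asm_update hi C]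
          exact cntU hC hi m3 ⟨i, hi, hCi' c (Or.inl hc)⟩)
      rw [← e1] at s
      exact s
    have t6 : RR β (asm k (Function.update C i (A ++ [y, x] ++ D)))
        (asm k (Function.update C i (A ++ [y, x] ++ (List.replicate (N + 1) y ++ D)))) := by
      have e1 : asm k (Function.update C i (A ++ [y, x] ++ D)) =
          (pre C i ++ A) ++ y :: ([x] ++ (D ++ suf C i (k - i))) := by
        rw [asm_update hi C]
        simp only [List.append_assoc, List.cons_append, List.nil_append]
      have e2 : asm k (Function.update C i (A ++ [y, x] ++ (List.replicate (N + 1) y ++ D))) =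
          (pre C i ++ A) ++ y :: ([x] ++ (List.replicate (N + 1) y ++ (D ++ suf C i (k - i)))) := by
        rw [asm_update hi C]
        simp only [List.append_assoc, List.cons_append, List.nil_append]
      rw [e2]
      have s := hE [x] (pre C i ++ A) (D ++ suf C i (k - i)) y (List.mem_append_left _ hyD) (by
          intro c hc
          rw [← e1, asm_update hi C]
          refine cntU hC hi m4 ⟨i, hi, hCi' c ?_⟩
          rw [List.mem_singleton] at hc
          exact Or.inr (Or.inr (Or.inl hc)))
      rw [← e1] at s
      exact s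
    refine θ.trans (hle _ _ (β.trans t1 t2)) (θ.trans t3 ?_)
    exact hle _ _ (β.trans t4.symm (β.trans t5.symm t6.symm))

theorem xcn (hblr : MWS.BlrStmt) (hXCW : MWS.XcwStmt) (hIDN : IdnStmt) (hELN : ElnStmt)
    (hSHN : ShnStmt) (hBSW : BswStmt) : XcnStmt := by
  intro n β hβ
  have _ := hXCW
  obtain ⟨N, rfl⟩ : ∃ N, n = N + 1 := ⟨n - 1, by have := hβ.pos; omega⟩
  have hI : HI N β := by
    intro p q x h
    have h1 := hIDN (N + 1) β hβ.pos hβ.ap hβ.be p q x h 1
    have e : (N + 1) * 1 + 1 = N + 2 := by ring
    rw [e] at h1
    exact h1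
  have hE : HE N β := fun w p q a h1 h2 => hELN (N + 1) β hβ w p q a h1 h2
  exact { toClXn := hBSW (N + 1) β hβ
          xch := by
            intro θ hle k C hC i hi A D x y hCi hxy hxA _ _ hyD hV
            exact xchN hblr hSHN hβ hI hE θ hle k C hC i hi A D x y hCi hxy hxA hyD hV }

end Pool.Agent.MWBN.H36
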